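import Pool.Agent.AFX.Stmts
import Pool.Agent.Helper69_AEC.Base

/-!
# Squad AFX: one companion is enough (FRE), Hanf argument for the spectrum (HN4), local form (LFM)
-/

open FirstOrder FirstOrder.Language Cardinal Set

universe u

namespace Pool.Agent.AFX.H94

open Pool.Agent.AEC

theorem fre : FreStmt.{u} := by
  intro L κ K l χ hχ hl hlχ hc M N e hM hN ι B f hB hcpt
  have hχl : χ < l := by
    have h2 : (2 : Cardinal.{u}) ≤ l := (Cardinal.natCast_lt_aleph0 (n := 2)).le.trans hl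
    calc χ < 2 ^ χ := Cardinal.cantor χ
      _ ≤ l ^ χ := Cardinal.power_le_power_right h2
      _ = l := hlχ
  have hκl : κ ≤ l := hχ.trans hχl.le
  have hMl : #M.α ≤ l := hM.trans hχl.le
  obtain ⟨X, hX⟩ := Cardinal.le_mk_iff_exists_set.1 hN
  obtain ⟨S, hXS, hS, hSc⟩ := K.ls N.prop (X ∪ Set.range e)
  have hre : #(Set.range e) ≤ l := Cardinal.mk_range_le.trans hMl
  have hSl : #S ≤ l := by
    refine hSc.trans ?_
    refine Cardinal.add_le_of_le hl ((Cardinal.mk_union_le _ _).trans ?_) hκl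
    exact Cardinal.add_le_of_le hl hX.le hre
  have hlS : l ≤ #S := by
    rw [← hX]
    exact Cardinal.mk_le_mk_of_subset (Set.subset_union_left.trans hXS)
  let N' : K.Mod := AEC.sub N S hS
  have hN' : #N'.α = l := le_antisymm hSl hlS
  let a : K.Hom N' N := AEC.subHom N S hS
  obtain ⟨e', he'⟩ := AEC.Hom.exists_factor e a
    (fun x => ⟨⟨e x, hXS (Or.inr ⟨x, rfl⟩)⟩, rfl⟩)
  choose Z g h hgh using hcpt
  have hT : ∀ j, ∃ T : L.Substructure (Z j).α,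
      (Set.range (fun y : N'.α => g j (a y)) ∪ Set.range (h j)) ⊆ (T : Set (Z j).α) ∧
        K.emb T.subtype ∧ #T ≤ l := by
    intro j
    obtain ⟨T, h1, h2, h3⟩ := K.ls (Z j).prop
      (Set.range (fun y : N'.α => g j (a y)) ∪ Set.range (h j))
    refine ⟨T, h1, h2, h3.trans ?_⟩
    refine Cardinal.add_le_of_le hl ((Cardinal.mk_union_le _ _).trans ?_) hκl
    exact Cardinal.add_le_of_le hl (Cardinal.mk_range_le.trans hN'.le)
      (Cardinal.mk_range_le.trans (hB j))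
  choose T hT1 hT2 hT3 using hT
  let C : ι → K.Mod := fun j => AEC.sub (Z j) (T j) (hT2 j)
  let c : ∀ j, K.Hom (C j) (Z j) := fun j => AEC.subHom (Z j) (T j) (hT2 j)
  have hg' : ∀ j, ∃ g' : K.Hom N' (C j), ∀ y, c j (g' y) = g j (a y) := by
    intro j
    obtain ⟨g', hg'⟩ := AEC.Hom.exists_factor ((g j).comp a) (c j)
      (fun y => ⟨⟨g j (a y), hT1 j (Or.inl ⟨y, rfl⟩)⟩, rfl⟩)
    exact ⟨g', hg'⟩
  have hh' : ∀ j, ∃ h' : K.Hom (B j) (C j), ∀ y, c j (h' y) = h j y := by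
    intro j
    obtain ⟨h', hh'⟩ := AEC.Hom.exists_factor (h j) (c j)
      (fun y => ⟨⟨h j y, hT1 j (Or.inr ⟨y, rfl⟩)⟩, rfl⟩)
    exact ⟨h', hh'⟩
  choose g' hg' using hg'
  choose h' hh' using hh'
  have hC : ∀ j, #(C j).α = l := fun j => le_antisymm (hT3 j)
    (hN'.symm.le.trans (Cardinal.mk_le_of_injective (g' j).injective))
  obtain ⟨Zf, w, hw⟩ := Base.w2g L κ K l χ hχ hl hlχ hc N' hN' (Set.range e')
    (Cardinal.mk_range_le.trans hM) ι C g' hC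
  refine ⟨Zf, fun j => (w j).comp (h' j), fun i j x => ?_⟩
  have key : ∀ j, h' j (f j x) = g' j (e' x) := by
    intro j
    apply (c j).injective
    rw [hh', hg', he', hgh]
  rw [AEC.Hom.comp_apply, AEC.Hom.comp_apply, key i, key j]
  exact hw i j _ ⟨x, rfl⟩

/-- Hanf argument: categoricity in one `l = l ^ μ` gives categoricity in some `l = l ^ ν` for
every `ν`. -/
theorem hn4 (κ : Cardinal.{u}) : ∃ μ : Cardinal.{u}, κ ≤ μ ∧
    ∀ (L : FirstOrder.Language.{u, u}) (K : AEC L κ),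
      (∃ l, ℵ₀ ≤ l ∧ l ^ μ = l ∧ K.Cat l) →
      ∀ ν : Cardinal.{u}, 1 ≤ ν → ∃ l, ℵ₀ ≤ l ∧ l ^ ν = l ∧ K.Cat l := by
  classical
  let T := Σ F : ℕ → Set κ.out, Σ R : ℕ → Set κ.out, AEC (codeLang F R) κ
  have hsm : ∀ F R : ℕ → Set κ.out, Small.{u} (AEC (codeLang F R) κ) := fun F R => Base.sml _ κ
  have hT : Small.{u} T := inferInstance
  let b : T → Cardinal.{u} := fun t =>
    if h : ∃ ν : Cardinal.{u}, 1 ≤ ν ∧ ∀ l, ℵ₀ ≤ l → t.2.2.Cat l → l ^ ν ≠ l then h.choose else 0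
  obtain ⟨B, hB⟩ : BddAbove (Set.range b) := Cardinal.bddAbove_of_small
  refine ⟨max B κ, le_max_right _ _, fun L K => ?_⟩
  obtain ⟨F, R, K0, h0⟩ := Base.lng L κ K
  rintro ⟨l, hl, hlB, hc⟩ ν hν
  by_contra hcon
  push Not at hcon
  have hb : ∃ ν : Cardinal.{u}, 1 ≤ ν ∧ ∀ l, ℵ₀ ≤ l → K0.Cat l → l ^ ν ≠ l :=
    ⟨ν, hν, fun l' hl' hc' h => hcon l' hl' h ((h0 l').1.2 hc')⟩
  have h1 : b ⟨F, R, K0⟩ = hb.choose := dif_pos hb
  have h3 : hb.choose ≤ max B κ := by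
    rw [← h1]
    exact (hB ⟨_, rfl⟩).trans (le_max_left _ _)
  have hl0 : l ≠ 0 := (Cardinal.aleph0_pos.trans_le hl).ne'
  refine hb.choose_spec.2 l hl ((h0 l).1.1 hc) (le_antisymm ?_ ?_)
  · calc l ^ hb.choose ≤ l ^ (max B κ) := Cardinal.power_le_power_left hl0 h3
      _ = l := hlB
  · calc l = l ^ (1 : Cardinal.{u}) := (Cardinal.power_one l).symm
      _ ≤ l ^ hb.choose := Cardinal.power_le_power_left hl0 hb.choose_spec.1

/-- Compatibility over `M` is transitive through large models. -/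
theorem lfm (κ : Cardinal.{u}) : ∃ μ : Cardinal.{u}, κ ≤ μ ∧
    ∀ (L : FirstOrder.Language.{u, u}) (K : AEC L κ),
      (∃ l, ℵ₀ ≤ l ∧ l ^ μ = l ∧ K.Cat l) →
      ∀ (M : K.Mod) (ι : Type u) (B : ι → K.Mod) (f : ∀ j, K.Hom M (B j)),
        (∀ θ : Cardinal.{u}, ∃ (N : K.Mod) (e : K.Hom M N), θ ≤ #N.α ∧ ∀ j, Cpt e (f j)) →
        Joint f := by
  obtain ⟨μ, hκμ, hμ⟩ := hn4 κ
  refine ⟨μ, hκμ, fun L K hcat M ι B f hcomp => ?_⟩
  have hne : 1 ≤ κ := Cardinal.one_le_aleph0.trans K.aleph0_le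
  let ν : Cardinal.{u} := max κ (max #M.α (⨆ j, #(B j).α))
  have hν : κ ≤ ν := le_max_left _ _
  obtain ⟨l, hl, hlν, hc⟩ := hμ L K hcat ν (hne.trans hν)
  obtain ⟨N, e, hN, hcpt⟩ := hcomp l
  have hνl : ν ≤ l := by
    have h2 : (2 : Cardinal.{u}) ≤ l := (Cardinal.natCast_lt_aleph0 (n := 2)).le.trans hl
    calc ν ≤ 2 ^ ν := (Cardinal.cantor ν).le
      _ ≤ l ^ ν := Cardinal.power_le_power_right h2
      _ = l := hlν
  refine fre L κ K l ν hν hl hlν hc M N e ?_ hN ι B f (fun j => ?_) hcpt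
  · exact (le_max_left _ _).trans (le_max_right _ _)
  · refine le_trans ?_ hνl
    have h5 : #(B j).α ≤ ⨆ j, #(B j).α :=
      le_ciSup (f := fun j => #(B j).α) (Cardinal.bddAbove_of_small) j
    exact h5.trans ((le_max_right _ _).trans (le_max_right _ _))

end Pool.Agent.AFX.H94
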