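import Pool.Agent.AFX.StmtsB
import Pool.Agent.Helper94_AFX.LFM

/-!
# Squad AFX: the Hanf form
-/

open FirstOrder FirstOrder.Language Cardinal Set

universe u

namespace Pool.Agent.AFX.H94

open Pool.Agent.AEC

/-- The Hanf form: categoricity in one `l = l ^ μ` gives full amalgamation over every member all of
whose extensions have a proper free extension. -/
theorem hanf (to3 : To3Stmt.{u}) : ∀ κ : Cardinal.{u}, ∃ μ : Cardinal.{u}, κ ≤ μ ∧
    ∀ (L : FirstOrder.Language.{u, u}) (K : AEC L κ),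
      (∃ l, ℵ₀ ≤ l ∧ l ^ μ = l ∧ K.Cat l) →
      ∀ M : K.Mod, (∀ A : K.Mod, K.Hom M A →
        ∃ (T : K.Mod) (i : K.Hom A T), ¬ Function.Surjective i ∧ Free i) →
      ∀ (ι : Type u) (B : ι → K.Mod) (f : ∀ j, K.Hom M (B j)), Joint f := by
  intro κ
  obtain ⟨μ, h1, h2⟩ := lfm κ
  refine ⟨μ, h1, fun L K hc M hM ι B f => h2 L K hc M ι B f fun θ => ?_⟩
  obtain ⟨N, e, hN, h3⟩ := to3 L κ K M (max θ ℵ₀) (le_max_right _ _) (fun A hA _ => hM A hA) ι B f
  exact ⟨N, e, (le_max_left _ _).trans hN, h3⟩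

end Pool.Agent.AFX.H94
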